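import Mathlib
import Pool.Agent.Helper82.BR.St

/-! Module CA for MP_514f88_co. -/

set_option autoImplicit false

namespace Pool.Agent.Helper42.BR

open Pool.Agent.Helper82.BR
open scoped ComplexConjugate

theorem mcj {p : ℂ} (h : ‖p‖ = 1) : p * conj p = 1 := by
  rw [Complex.mul_conj, Complex.normSq_eq_norm_sq, h]
  norm_num

theorem nw {w : ℂ} (hw : w ^ 2 = w - 1) : ‖w‖ = 1 := by
  have h3 : w ^ 3 = -1 := by linear_combination (w + 1) * hw
  have h4 : ‖w‖ ^ 3 = 1 := by rw [← norm_pow, h3, norm_neg, norm_one]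
  exact (pow_eq_one_iff_of_nonneg (norm_nonneg _) (by norm_num)).1 h4

theorem base {s p : ℂ} (hp : ‖p‖ = 1) (h : dist s 0 = dist s p) :
    conj s * p ^ 2 - p + s = 0 := by
  have hp' := mcj hp
  have h1 : ‖s‖ = ‖s - p‖ := by
    rw [dist_zero_right, dist_eq_norm] at h
    exact h
  have h2 : s * conj s = (s - p) * conj (s - p) := by
    rw [Complex.mul_conj, Complex.mul_conj, Complex.normSq_eq_norm_sq,
      Complex.normSq_eq_norm_sq, h1]
  rw [map_sub] at h2
  linear_combination p * h2 + (p - s) * hp'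

theorem key1 {s p w : ℂ} (hw : w ^ 2 = w - 1) (hs : ‖s‖ = 1) (hp : ‖p‖ = 1)
    (h : dist s 0 = dist s p) : p = s * w ∨ p = s * (1 - w) := by
  have hb := base hp h
  have hs' := mcj hs
  have h1 : (p - s * w) * (p - s * (1 - w)) = 0 := by
    linear_combination s * hb - p ^ 2 * hs' - s ^ 2 * hw
  rcases mul_eq_zero.1 h1 with h2 | h2
  · exact Or.inl (sub_eq_zero.1 h2)
  · exact Or.inr (sub_eq_zero.1 h2)

theorem key2 {s : ℂ} (hs : s ≠ 0) (T : Finset ℂ) (hT : ∀ p ∈ T, ‖p‖ = 1 ∧ dist s 0 = dist s p) :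
    T.card ≤ 2 := by
  by_contra hc
  rw [not_le, Finset.two_lt_card] at hc
  obtain ⟨a, ha, b, hb, c, hc, hab, hac, hbc⟩ := hc
  have h1 := base (hT a ha).1 (hT a ha).2
  have h2 := base (hT b hb).1 (hT b hb).2
  have h3 := base (hT c hc).1 (hT c hc).2
  have hs' : conj s ≠ 0 := by
    intro h
    exact hs ((map_eq_zero (starRingEnd ℂ)).1 h)
  have e1 : (a - b) * (conj s * (a + b) - 1) = 0 := by linear_combination h1 - h2
  have e2 : (a - c) * (conj s * (a + c) - 1) = 0 := by linear_combination h1 - h3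
  have e3 := (mul_eq_zero.1 e1).resolve_left (sub_ne_zero.2 hab)
  have e4 := (mul_eq_zero.1 e2).resolve_left (sub_ne_zero.2 hac)
  have e5 : conj s * (b - c) = 0 := by linear_combination e3 - e4
  exact (mul_ne_zero hs' (sub_ne_zero.2 hbc)) e5

theorem hCA : StCA := by
  classical
  intro S w hw hR h0 h7 h4
  have hw1 := nw hw
  have hw' : (1 - w) ^ 2 = (1 - w) - 1 := by linear_combination hw
  have hw1' := nw hw'
  obtain ⟨A, hA⟩ : ∃ A : Finset ℂ, A = S.filter (fun s => ‖s‖ = 1) := ⟨_, rfl⟩
  obtain ⟨C, hC⟩ : ∃ C : Finset ℂ, C = S.filter (fun s => ¬ ‖s‖ = 1) := ⟨_, rfl⟩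
  have mA : ∀ s, s ∈ A ↔ s ∈ S ∧ ‖s‖ = 1 := by
    intro s
    rw [hA, Finset.mem_filter]
  have mC : ∀ s, s ∈ C ↔ s ∈ S ∧ ¬ ‖s‖ = 1 := by
    intro s
    rw [hC, Finset.mem_filter]
  have h4' : 4 ≤ A.card := by
    rw [hA]
    convert h4 using 2
  have hAC : A.card + C.card = S.card := by
    rw [hA, hC]
    exact Finset.card_filter_add_card_filter_not _
  have h0C : (0 : ℂ) ∈ C := by
    rw [mC]
    refine ⟨h0, ?_⟩
    rw [norm_zero]
    exact zero_ne_one
  have hCe : (C.erase 0).card + 1 = C.card := Finset.card_erase_add_one h0C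
  have hsw : (∑ p ∈ A, (S.filter (fun s => dist s 0 = dist s p)).card)
      = ∑ s ∈ S, (A.filter (fun p => dist s 0 = dist s p)).card := by
    simp only [Finset.card_filter]
    exact Finset.sum_comm
  have hlow : 2 * A.card ≤ ∑ p ∈ A, (S.filter (fun s => dist s 0 = dist s p)).card := by
    have : (∑ _p ∈ A, 2) ≤ ∑ p ∈ A, (S.filter (fun s => dist s 0 = dist s p)).card := by
      refine Finset.sum_le_sum fun p hp => ?_
      have hp' := (mA p).1 hp
      have hp0 : (0 : ℂ) ≠ p := by
        intro h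
        rw [← h, norm_zero] at hp'
        exact zero_ne_one hp'.2
      have := hR 0 h0 p hp'.1 hp0
      convert this using 2
    rw [Finset.sum_const, smul_eq_mul] at this
    omega
  have hb1 : ∀ s, ‖s‖ = 1 → (A.filter (fun p => dist s 0 = dist s p)).card
      ≤ (if s * w ∈ S then 1 else 0) + (if s * (1 - w) ∈ S then 1 else 0) := by
    intro s hs
    have hk : ∀ p ∈ A.filter (fun p => dist s 0 = dist s p),
        p ∈ S ∧ (p = s * w ∨ p = s * (1 - w)) := by
      intro p hp
      rw [Finset.mem_filter, mA] at hp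
      exact ⟨hp.1.1, key1 hw hs hp.1.2 hp.2⟩
    have hsub : A.filter (fun p => dist s 0 = dist s p)
        ⊆ (if s * w ∈ S then {s * w} else ∅) ∪ (if s * (1 - w) ∈ S then {s * (1 - w)} else ∅) := by
      intro p hp
      obtain ⟨h1, h2⟩ := hk p hp
      rw [Finset.mem_union]
      rcases h2 with h2 | h2
      · left
        rw [← h2, if_pos h1]
        exact Finset.mem_singleton_self _
      · right
        rw [← h2, if_pos h1]
        exact Finset.mem_singleton_self _
    refine (Finset.card_le_card hsub).trans ((Finset.card_union_le _ _).trans ?_)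
    refine add_le_add ?_ ?_
    · split_ifs
      · exact (Finset.card_singleton _).le
      · exact (Finset.card_empty).le
    · split_ifs
      · exact (Finset.card_singleton _).le
      · exact (Finset.card_empty).le
  have hup : (∑ s ∈ S, (A.filter (fun p => dist s 0 = dist s p)).card)
      ≤ ∑ s ∈ S, (if ‖s‖ = 1 then ((if s * w ∈ S then 1 else 0)
        + (if s * (1 - w) ∈ S then 1 else 0)) else (if s = 0 then 0 else 2)) := by
    refine Finset.sum_le_sum fun s _ => ?_
    by_cases hs : ‖s‖ = 1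
    · rw [if_pos hs]
      exact hb1 s hs
    · rw [if_neg hs]
      by_cases hs0 : s = 0
      · rw [if_pos hs0, hs0]
        refine le_of_eq (Finset.card_eq_zero.2 (Finset.filter_eq_empty_iff.2 ?_))
        intro p hp h
        rw [dist_self, dist_zero_left, ((mA p).1 hp).2] at h
        exact zero_ne_one h
      · rw [if_neg hs0]
        refine key2 hs0 _ fun p hp => ?_
        rw [Finset.mem_filter, mA] at hp
        exact ⟨hp.1.2, hp.2⟩
  have hsplit : (∑ s ∈ S, (if ‖s‖ = 1 then ((if s * w ∈ S then 1 else 0)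
        + (if s * (1 - w) ∈ S then 1 else 0)) else (if s = 0 then 0 else 2)))
      = (A.filter (fun s => s * w ∈ S)).card + (A.filter (fun s => s * (1 - w) ∈ S)).card
        + 2 * (C.erase 0).card := by
    have hg : (∑ s ∈ C, (if s = 0 then 0 else 2)) = 2 * (C.erase 0).card := by
      have h5 := Finset.add_sum_erase C (fun s : ℂ => if s = 0 then (0 : ℕ) else 2) h0C
      have h6 : (∑ s ∈ C.erase 0, (if s = 0 then (0 : ℕ) else 2)) = ∑ _s ∈ C.erase 0, 2 := by
        refine Finset.sum_congr rfl fun s hs => ?_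
        rw [if_neg (Finset.ne_of_mem_erase hs)]
      rw [h6, Finset.sum_const, smul_eq_mul, if_pos rfl, zero_add] at h5
      rw [← h5, mul_comm]
    rw [Finset.sum_ite, ← hA, ← hC, hg, Finset.sum_add_distrib, Finset.card_filter,
      Finset.card_filter]
  have hEE : (A.filter (fun s => s * (1 - w) ∈ S)).card ≤ (A.filter (fun s => s * w ∈ S)).card := by
    refine Finset.card_le_card_of_injOn (fun s => s * (1 - w)) ?_ ?_
    · intro s hs
      have hs' := Finset.mem_filter.1 (Finset.mem_coe.1 hs)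
      have hs1 := (mA s).1 hs'.1
      refine Finset.mem_coe.2 (Finset.mem_filter.2 ⟨(mA _).2 ⟨hs'.2, ?_⟩, ?_⟩)
      · rw [norm_mul, hs1.2, hw1', mul_one]
      · have : s * (1 - w) * w = s := by linear_combination (-s) * hw
        show s * (1 - w) * w ∈ S
        rw [this]
        exact hs1.1
    · intro s _ s' _ h
      have hne : (1 - w) ≠ 0 := by
        intro h
        rw [h, norm_zero] at hw1'
        exact zero_ne_one hw1'
      exact mul_right_cancel₀ hne h
  have hE : 1 < (A.filter (fun s => s * w ∈ S)).card := by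
    rw [hsw] at hlow
    rw [hsplit] at hup
    omega
  obtain ⟨p, hp, q, hq, hpq⟩ := Finset.one_lt_card.1 hE
  rw [Finset.mem_filter, mA] at hp hq
  exact ⟨p, hp.1.1, q, hq.1.1, hpq, hp.1.2, hq.1.2, hp.2, hq.2⟩

end Pool.Agent.Helper42.BR
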